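import Pool.Agent.Lib.MP_d8f801_lc.SC.V.Goal
import Pool.Agent.Lib.MP_d8f801_lc.SC.H.Goal
import Pool.Agent.Lib.MP_d8f801_lc.SC.U.Goal
import Pool.Agent.Lib.MP_d8f801_lc.SC.N.Frame
import Pool.Agent.Lib.MP_d8f801_lc.SC.N.PosA
import Pool.Agent.Lib.MP_d8f801_lc.SC.N.PosC
import Pool.Agent.Lib.MP_d8f801_lc.SC.N.NegC
import Pool.Agent.Lib.MP_d8f801_lc.SC.N.NegB

/-!
# None of the implications between the variants of Strong Chang's Conjecture is reversible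

If there is a measurable cardinal then there are models of ZFC in which `SCC^split` holds and `SCC^cof` fails, and models of
ZFC in which `SCC` holds and `SCC^split` (and `SCC^cof`) fail.
-/

set_option autoImplicit false

universe u

namespace Pool.Agent.Results.MP_d8f801_lc.NoneReversible

open Pool.MP_d8f801_lc.SC Pool.Agent.Lib.MP_4d8715_gt.KR

theorem result : ∃ fS fP fC : Fml 0,
    (∀ (M : Type (u + 1)) (E : M → M → Prop), (Fml.Sat E fS ![] ↔ Sc.SCC E) ∧ (Fml.Sat E fP ![] ↔ Sc.SCCsplit E) ∧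
      (Fml.Sat E fC ![] ↔ Sc.SCCcof E)) ∧
    ((Sc.SCC zmem ↔ Pool.MP_d8f801_lc.SCC) ∧ (Sc.SCCsplit zmem ↔ Pool.MP_d8f801_lc.SCCsplit) ∧
      (Sc.SCCcof zmem ↔ Pool.MP_d8f801_lc.SCCcof)) ∧
    ∀ κ : Cardinal.{u}, IsMeasurableCard κ →
      (∃ (M : Type (u + 1)) (E : M → M → Prop), (∀ ψ ∈ Fml.ZFC, Fml.Sat E ψ ![]) ∧ Fml.Sat E fS ![] ∧
        Fml.Sat E fP ![] ∧ ¬ Fml.Sat E fC ![]) ∧
      ∃ (M : Type (u + 1)) (E : M → M → Prop), (∀ ψ ∈ Fml.ZFC, Fml.Sat E ψ ![]) ∧ Fml.Sat E fS ![] ∧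
        ¬ Fml.Sat E fP ![] ∧ ¬ Fml.Sat E fC ![] := by
  refine ⟨fSCC, fSCCsplit, fSCCcof, fun M E => ⟨sat_fSCC E, sat_fSCCsplit E, sat_fSCCcof E⟩,
    ⟨sc_SCC_iff, sc_SCCsplit_iff, sc_SCCcof_iff⟩, fun κ hκ => ?_⟩
  obtain ⟨X, ⟨inst⟩⟩ := exists_stg κ hκ
  constructor
  · have hf := frame (X := X) false
    have := hf.ne
    obtain ⟨M, E, hZ, hM⟩ := exists_model_ZFC (RO (PP X false))
    exact ⟨M, E, hZ, hM _ (bv_fSCC hf (pos_scc_A X)), hM _ (bv_fSCCsplit hf (pos_split X)),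
      hM _ (bv_not_fSCCcof hf (neg_cof_gen X false))⟩
  · have hf := frame (X := X) true
    have := hf.ne
    obtain ⟨M, E, hZ, hM⟩ := exists_model_ZFC (RO (PP X true))
    exact ⟨M, E, hZ, hM _ (bv_fSCC hf (pos_scc X)), hM _ (bv_not_fSCCsplit hf (neg_split X)),
      hM _ (bv_not_fSCCcof hf (neg_cof_gen X true))⟩

end Pool.Agent.Results.MP_d8f801_lc.NoneReversible
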