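import Pool.Agent.Lib.MP_d8f801_lc.Final

/-!
# `SCC^split` implies `SCC^cof` or the continuum is `ℵ₁`
-/

set_option autoImplicit false

namespace Pool.Agent.Results.MP_d8f801_lc.SplitCofOrCH

open Cardinal Ordinal Pool.MP_d8f801_lc

theorem result :
    (SCCsplit → SCCcof ∨ (𝔠 : Cardinal.{0}) = ℵ₁) ∧
    (SCC → (ForLarge fun Δ M => CofAt Δ M ∨ ∃ M' ∈ End Δ M, ¬ SplitAt Δ M') ∨
      (𝔠 : Cardinal.{0}) = ℵ₁) :=
  dichotomy

end Pool.Agent.Results.MP_d8f801_lc.SplitCofOrCH
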