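import Pool.Agent.Lib.MP_d8f801_lc.Final

/-!
# The variants of Strong Chang's Conjecture and the number of end-traces
-/

set_option autoImplicit false

namespace Pool.Agent.Results.MP_d8f801_lc.TraceNumbers

open Cardinal Ordinal Pool.MP_d8f801_lc

theorem result :
    (SCC ↔ ManyTraces 2) ∧ (SCC ↔ ManyTraces ℵ₁) ∧ (SCCsplit → ManyTraces 𝔠) ∧
    (SCCcof ↔ ManyTraces (ℵ_ 2)) :=
  trace_numbers

end Pool.Agent.Results.MP_d8f801_lc.TraceNumbers
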